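import Pool.Agent.W622.ETG.Stm

set_option autoImplicit false

/-!
ELG-AG1: the blocks do not have dimension one.
-/

namespace Pool.Agent.W563.ELG

open Pool.Agent.W622.ETG Module

universe u

/-- a line over `F_2` has one nonzero vector -/
theorem line_uniq {V : Type u} [AddCommGroup V] [Module (ZMod 2) V] {Y : DSub V}
    (h : finrank (ZMod 2) Y = 1) {a b : Dl V} (ha : a ∈ Y) (hb : b ∈ Y) (ha0 : a ≠ 0)
    (hb0 : b ≠ 0) : a = b := by
  have hv : (⟨a, ha⟩ : Y) ≠ 0 := fun h0 => ha0 (congrArg Subtype.val h0)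
  obtain ⟨c, hc⟩ := (finrank_eq_one_iff_of_nonzero' (⟨a, ha⟩ : Y) hv).1 h ⟨b, hb⟩
  have hc' : c • a = b := congrArg Subtype.val hc
  have hc0 : c ≠ 0 := by
    rintro rfl
    rw [zero_smul] at hc'
    exact hb0 hc'.symm
  have hc1 : c = 1 := by
    revert hc0
    revert c
    intro c _ _ h
    fin_cases c
    · exact absurd rfl h
    · rfl
  rw [hc1, one_smul] at hc'
  exact hc'

theorem line_ex {V : Type u} [AddCommGroup V] [Module (ZMod 2) V] {Y : DSub V}
    (h : finrank (ZMod 2) Y = 1) : ∃ a ∈ Y, a ≠ 0 := by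
  by_contra hcon
  push Not at hcon
  have h1 : Y = ⊥ := by
    rw [Submodule.eq_bot_iff]
    exact hcon
  rw [h1, finrank_bot] at h
  exact absurd h (by norm_num)

/-- AG1 -/
theorem t_AG1 : S_AG1 := by
  intro V _ _ _ e A p hCB hp hfin hone hcard hdvd hbas
  classical
  have : Finite (Dl V) :=
    Finite.of_injective (fun f : Dl V => (f : V → ZMod 2)) DFunLike.coe_injective
  set 𝓑 : Set (DSub V) := {X | Block e A X} with h𝓑
  have hfinB : 𝓑.Finite := Set.toFinite _
  have hn : 𝓑.ncard ≤ p + 1 := by
    by_contra hlt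
    push Not at hlt
    rw [Set.ncard_eq_toFinset_card _ hfinB] at hlt
    obtain ⟨T, hT, hTc⟩ := Finset.exists_subset_card_eq (s := hfinB.toFinset) (n := p) (by omega)
    have hTB : ∀ X ∈ T, Block e A X := fun X hX => by
      have := hT hX
      rwa [Set.Finite.mem_toFinset] at this
    have hsd : 1 < (hfinB.toFinset \ T).card := by
      rw [Finset.card_sdiff_of_subset hT, hTc]
      omega
    obtain ⟨X, hX, X', hX', hne⟩ := Finset.one_lt_card.1 hsd
    -- every further block is generated by the sum
    choose! s hs1 hs2 using fun (Y : DSub V) (hY : Block e A Y) => line_ex (hone Y hY)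
    have key : ∀ X ∈ hfinB.toFinset \ T, s X = ∑ Y ∈ T, s Y := by
      intro X hX
      rw [Finset.mem_sdiff, Set.Finite.mem_toFinset] at hX
      obtain ⟨hXB, hXT⟩ := hX
      have htop : s X ∈ ⨆ Y ∈ T, (id Y : DSub V) := by
        have h1 := (hbas T hTB hTc).2
        rw [sSup_eq_iSup] at h1
        have h2 : (⨆ Y ∈ T, (id Y : DSub V)) = ⊤ := by
          rw [← h1]
          rfl
        rw [h2]
        exact Submodule.mem_top
      rw [Submodule.mem_iSup_finset_iff_exists_sum] at htop
      obtain ⟨μ, hμ⟩ := htop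
      have hμ0 : ∀ Y ∈ T, (μ Y : Dl V) ≠ 0 := by
        intro Y₀ hY₀ h0
        have hmem : s X ∈ sSup ((T.erase Y₀ : Finset (DSub V)) : Set (DSub V)) := by
          rw [← hμ, ← Finset.add_sum_erase T _ hY₀, h0, zero_add]
          refine Submodule.sum_mem _ fun Y hY => ?_
          exact (le_sSup (Finset.mem_coe.2 hY) : Y ≤ _) (μ Y).2
        have hXe : X ∉ T.erase Y₀ := fun h => hXT (Finset.mem_of_mem_erase h)
        have hpos : 0 < T.card := by omega
        have hind := (hbas (insert X (T.erase Y₀)) (by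
          intro Y hY
          rcases Finset.mem_insert.1 hY with rfl | hY
          · exact hXB
          · exact hTB Y (Finset.mem_of_mem_erase hY)) (by
          rw [Finset.card_insert_of_notMem hXe, Finset.card_erase_of_mem hY₀]
          omega)).1
        have hdis := hind (a := X) (by simp)
        have hsub : ((T.erase Y₀ : Finset (DSub V)) : Set (DSub V)) ⊆
            ((insert X (T.erase Y₀) : Finset (DSub V)) : Set (DSub V)) \ {X} := by
          intro Y hY
          refine ⟨Finset.mem_coe.2 (Finset.mem_insert_of_mem (Finset.mem_coe.1 hY)), ?_⟩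
          rintro rfl
          exact hXe (Finset.mem_coe.1 hY)
        have h3 : s X ∈ X ⊓ sSup (((insert X (T.erase Y₀) : Finset (DSub V)) :
            Set (DSub V)) \ {X}) := ⟨hs1 X hXB, sSup_le_sSup hsub hmem⟩
        rw [hdis.eq_bot, Submodule.mem_bot] at h3
        exact hs2 X hXB h3
      rw [← hμ]
      refine Finset.sum_congr rfl fun Y hY => ?_
      exact line_uniq (hone Y (hTB Y hY)) (μ Y).2 (hs1 Y (hTB Y hY)) (hμ0 Y hY) (hs2 Y (hTB Y hY))
    have heq : s X = s X' := (key X hX).trans (key X' hX').symm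
    rw [Finset.mem_sdiff, Set.Finite.mem_toFinset] at hX hX'
    have hbX := hX.1
    have hbX' := hX'.1
    apply hne
    have hspan : ∀ Y : DSub V, Block e A Y → Y = Submodule.span (ZMod 2) {s Y} := by
      intro Y hY
      refine le_antisymm (fun a ha => ?_) ?_
      · by_cases h0 : a = 0
        · rw [h0]; exact Submodule.zero_mem _
        · rw [line_uniq (hone Y hY) ha (hs1 Y hY) h0 (hs2 Y hY)]
          exact Submodule.mem_span_singleton_self _
      · rw [Submodule.span_singleton_le_iff_mem]
        exact hs1 Y hY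
    rw [hspan X hbX, hspan X' hbX', heq]
  have hm : 𝓑.ncard = p + 1 := le_antisymm hn hcard
  rw [hm] at hdvd
  have h1 : p ∣ 1 := (Nat.dvd_add_right (dvd_refl p)).1 hdvd
  have h2 := Nat.le_of_dvd one_pos h1
  omega

end Pool.Agent.W563.ELG
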